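import Pool.Agent.CR44.Crit

/-!
# MP_b192cd_nt: `993` beats every number whose trajectory does not linger

Let `x` be convergent and let its trajectory have at most `2^(m/2) / 9` odd terms in `[2^20, 2^m)`, for
`21 ≤ m ≤ 560`.  Then `Res x < Res 993`, unless `x = 2^j * 993`.

Proof.  The residues of all odd numbers `< 2^20` except `993` are at most `1.25303` (kernel computation,
`Pool/Agent/CR44/Low.lean`, `L0.lean`, ..., `LowT.lean`).  By the hypothesis the odd terms in `[2^20, 2^560)` contribute
at most the factor `exp ((1 + √2) / (3 * 9 * 1024) * 1.000004)`, and the terms `≥ 2^560` contribute less than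
`exp (10^(-6))` by the count of slow residue classes modulo `3 * 2^k` (`Pool/Agent/CR44/Tail.lean`); the product is
smaller than `Res 993 = 2^61 / (993 * 3^32)`.  Since `993` is divisible by `3`, only the numbers `2^j * 993` lead to it.
-/

set_option autoImplicit false

namespace Pool.Agent.Results.MP_b192cd_nt.FewOddTerms

open ColRes81

/-- The number of odd terms in `[2^20, 2^m)` of the trajectory of `x` (before its first term `1`). -/
noncomputable def cnt (x m : ℕ) : ℕ :=
  ((Finset.range (len x)).filter (fun i => C^[i] x % 2 = 1 ∧ 2 ^ 20 ≤ C^[i] x ∧ C^[i] x < 2 ^ m)).card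

/-- If the trajectory of the convergent number `x` has at most `2^(m/2) / 9` odd terms in `[2^20, 2^m)` for
`21 ≤ m ≤ 560`, then `Res x < Res 993` or `x = 2^j * 993`. -/
theorem result (x : ℕ) (hx : Convergent x) (h : ∀ m, 21 ≤ m → m ≤ 560 → 81 * cnt x m ^ 2 ≤ 2 ^ m) :
    (∃ j, x = 2 ^ j * 993) ∨ Res x < Res 993 :=
  CR44.crit hx h

/-- Special case: at most `160` odd terms `≥ 2^20`. -/
theorem few (x : ℕ) (hx : Convergent x)
    (h : ((Finset.range (len x)).filter (fun i => C^[i] x % 2 = 1 ∧ 2 ^ 20 ≤ C^[i] x)).card ≤ 160) :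
    (∃ j, x = 2 ^ j * 993) ∨ Res x < Res 993 := by
  refine result x hx fun m h1 _ => ?_
  have h2 : cnt x m ≤ 160 := by
    refine le_trans (Finset.card_le_card fun i hi => ?_) h
    rw [Finset.mem_filter] at hi ⊢
    exact ⟨hi.1, hi.2.1, hi.2.2.1⟩
  calc 81 * cnt x m ^ 2 ≤ 81 * 160 ^ 2 := Nat.mul_le_mul_left _ (Nat.pow_le_pow_left h2 2)
    _ ≤ 2 ^ 21 := by norm_num
    _ ≤ 2 ^ m := Nat.pow_le_pow_right (by norm_num) h1

end Pool.Agent.Results.MP_b192cd_nt.FewOddTerms
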