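import Pool.Agent.CR44.C20
import Pool.Agent.CR44.C24
import Pool.Agent.CR44.C32
import Pool.Agent.CR44.C40
import Pool.Agent.CR44.C48
import Pool.Agent.CR44.C56
import Pool.Agent.CR44.C64
import Pool.Agent.CR44.C72
import Pool.Agent.CR44.C80
import Pool.Agent.CR44.C96
import Pool.Agent.CR44.C128
import Pool.Agent.CR44.Fin

/-!
# MP_b192cd_nt: the Collatz residue is determined by the small numbers, up to a factor tending to 1

For every `b ≥ 20` and every convergent `x`, the first term `y < 2^b` of the trajectory of `x` satisfies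
`Res y ≤ Res x ≤ exp (23 * 0.97^b) * Res y`; so the terms of a trajectory before its first term `< 2^b` together
contribute at most the factor `exp (23 * 0.97^b)`, whatever `x` is.  For eleven values of `b` a sharper explicit
factor is given.  Consequently the question follows from a finite statement: if every convergent `y < 2^408` which is
not of the form `2^j * 993` has `Res y ≤ Res 3531`, then `993` has the largest residue.

Proof.  The odd terms `≥ 2^b` of one trajectory are distinct; the number of those below `N` is bounded by the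
recursion of `Pool/Agent/ColRes81` (slow residue classes modulo `3 * 2^k`), started at the level `2^b` in the place
of `2^20` (`Pool/Agent/CR44/Tail.lean`), and `Res x / Res y` is the product of `1 + 1 / (3 c)` over them
(`Pool/Agent/CR44/Red.lean`).  The sharper factors come from certificates for the cells `b, ..., 399`
(`Pool/Agent/CR44/C20.lean`, ...).
-/

set_option autoImplicit false

namespace Pool.Agent.Results.MP_b192cd_nt.FiniteReduction

open ColRes81

/-- Every convergent `x` has a first term `y < 2^b`, and `Res y ≤ Res x ≤ K * Res y`. -/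
def Reduces (b : ℕ) (K : ℝ) : Prop :=
  ∀ x : ℕ, Convergent x → ∃ k : ℕ, C^[k] x < 2 ^ b ∧ (∀ i < k, 2 ^ b ≤ C^[i] x) ∧
    Res (C^[k] x) ≤ Res x ∧ Res x ≤ K * Res (C^[k] x)

theorem reduces {b : ℕ} (hb : 20 ≤ b) : Reduces b (Real.exp (23 * (97 / 100) ^ b)) := by
  intro x hx
  refine CR44.red hb [] rfl (Real.exp_le_exp.2 ?_) hx
  have h : (0 : ℝ) < (97 / 100) ^ b := by positivity
  simp only [List.map_nil, List.sum_nil, Nat.cast_zero, zero_div, zero_mul, zero_add, List.length_nil, add_zero]
  linarith

/-- The bound for all residues from the bound for the residues of the numbers below `2^b`. -/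
theorem bound {b : ℕ} {K M : ℝ} (hK : 0 ≤ K) (h : Reduces b K) (hM : ∀ y < 2 ^ b, Convergent y → Res y ≤ M)
    (x : ℕ) (hx : Convergent x) : Res x ≤ K * M := by
  obtain ⟨k, h1, -, -, h2⟩ := h x hx
  exact h2.trans (mul_le_mul_of_nonneg_left (hM _ h1 (CR44.conv_iter k x hx)) hK)

/-- The terms before the first term `< 2^b` contribute at most the factor `exp (23 * 0.97^b)` to the residue; and
if `993` and `3531` have the two largest residues below `2^408` (powers of two ignored), then `993` has the largest
residue of all convergent numbers. -/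
theorem result :
    (∀ b : ℕ, 20 ≤ b → Reduces b (Real.exp (23 * (97 / 100) ^ b))) ∧
    Reduces 20 (195 / 100) ∧ Reduces 24 (174 / 100) ∧ Reduces 32 (147 / 100) ∧ Reduces 40 (132 / 100) ∧
    Reduces 48 (122 / 100) ∧ Reduces 56 (115 / 100) ∧ Reduces 64 (111 / 100) ∧ Reduces 72 (108 / 100) ∧
    Reduces 80 (106 / 100) ∧ Reduces 96 (103 / 100) ∧ Reduces 128 (101 / 100) ∧
    ((∀ y < 2 ^ 408, Convergent y → (∃ j, y = 2 ^ j * 993) ∨ Res y ≤ Res 3531) →
      ∀ x, Convergent x → (∃ j, x = 2 ^ j * 993) ∨ Res x < Res 993) :=
  ⟨fun _ hb => reduces hb, fun _ hx => CR44.red20 hx, fun _ hx => CR44.red24 hx, fun _ hx => CR44.red32 hx,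
    fun _ hx => CR44.red40 hx, fun _ hx => CR44.red48 hx, fun _ hx => CR44.red56 hx, fun _ hx => CR44.red64 hx,
    fun _ hx => CR44.red72 hx, fun _ hx => CR44.red80 hx, fun _ hx => CR44.red96 hx, fun _ hx => CR44.red128 hx,
    CR44.finite_check⟩

end Pool.Agent.Results.MP_b192cd_nt.FiniteReduction
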