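import Pool.Agent.ColRes81.Res

/-!
# MP_b192cd_nt: an absolute bound for the Collatz residue

Every convergent positive integer `x` has `Res x < 5/2`.

Proof.  `Res x` is at most `exp (∑ 1/(3 c))`, the sum over the odd terms `c` of the trajectory before the first `1`
(`Pool/Agent/ColRes81/Res.lean`).  Odd terms below `2^20`: kernel computation of first passages through the dyadic
cells (`Ker.lean`, `K12.lean`, ...).  Odd terms from `2^20` on, before the first one below `2^20`: they are distinct
and prime to `3` (except the first); the number `g N` of those below `N` satisfies
`g N ≤ (n + 1) + #{slow numbers in [N/2, N)} + g N'` where a number is slow if it has more than `n` odd terms among the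
first `k` iterates of the accelerated map (`Orbit.lean`); the slow numbers are counted by residues modulo `3 * 2^k`
(`Basic.lean`).  The recursion is evaluated for the cells `20, .., 299` (`Cert.lean`, `CertData.lean`) and gives
`g (2^b) ≤ (97/50)^b` for all `b` (`Tail.lean`); partial summation is in `Sum.lean`.
-/

set_option autoImplicit false

namespace Pool.Agent.Results.MP_b192cd_nt.ResidueBelow

/-- Every convergent positive integer has residue less than `5/2`. -/
theorem result (x : ℕ) (hx : ColRes81.Convergent x) : ColRes81.Res x < 5 / 2 :=
  ColRes81.Res_lt x hx

end Pool.Agent.Results.MP_b192cd_nt.ResidueBelow
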